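import Pool.Agent.W_MP_868bb7_ag.PermTail

set_option autoImplicit false

/-!
# Match: perfect matchings of `Fin n`, their functions and the three operations

`PM n`: fixed point free involutions of `Fin n` (empty for odd `n`, one element for `n = 0`).
The symmetric group acts by conjugation.  `sh2 g` is `g` on the points `2, 3, ...` of `Fin (n + 2)`,
`up m` adds the chord `{0, 1}` in front, `down` removes it.  Every matching of `Fin (n + 2)` is
`swap a.succ 1 • up m` for a unique pair `(a, m)` (`a.succ` is the partner of `0`).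

A function `x : PM n → K` stands for the combination `∑ x m • [m]`.  Operations: `trF g x` (translate),
`upF x` (add a chord), `ctrF δ x` (contraction of the points `0, 1` with the parameter `δ`),
`delF x` (deletion of the chord `{0, 1}`, the adjoint of `upF`).
-/

namespace Pool.Agent.W_868bb7_t7

open Equiv Pool.Agent.W_MP_868bb7_ag

/-- perfect matchings of `Fin n`: fixed point free involutions -/
def PM (n : ℕ) : Type :=
  {m : Equiv.Perm (Fin n) // (∀ i, m (m i) = i) ∧ ∀ i, m i ≠ i}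

instance (n : ℕ) : DecidableEq (PM n) :=
  inferInstanceAs (DecidableEq {m : Equiv.Perm (Fin n) // (∀ i, m (m i) = i) ∧ ∀ i, m i ≠ i})

instance (n : ℕ) : Fintype (PM n) :=
  inferInstanceAs (Fintype {m : Equiv.Perm (Fin n) // (∀ i, m (m i) = i) ∧ ∀ i, m i ≠ i})

theorem PM.ext' {n : ℕ} {m m' : PM n} (h : ∀ i, m.1 i = m'.1 i) : m = m' :=
  Subtype.ext (Equiv.ext h)

theorem PM.inv {n : ℕ} (m : PM n) (i : Fin n) : m.1 (m.1 i) = i := m.2.1 i

theorem PM.ne {n : ℕ} (m : PM n) (i : Fin n) : m.1 i ≠ i := m.2.2 i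

theorem inv_app {α : Type*} (g : Equiv.Perm α) (i : α) : g⁻¹ (g i) = i :=
  Equiv.symm_apply_apply g i

theorem app_inv {α : Type*} (g : Equiv.Perm α) (i : α) : g (g⁻¹ i) = i :=
  Equiv.apply_symm_apply g i

/-- the conjugation action -/
instance (n : ℕ) : MulAction (Equiv.Perm (Fin n)) (PM n) where
  smul g m := ⟨g * m.1 * g⁻¹, by
    constructor
    · intro i
      simp only [Equiv.Perm.mul_apply, inv_app, m.2.1, app_inv]
    · intro i h
      simp only [Equiv.Perm.mul_apply] at h
      apply m.2.2 (g⁻¹ i)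
      have h2 := congrArg (fun t => g⁻¹ t) h
      simpa only [inv_app] using h2⟩
  one_smul m := by
    apply PM.ext'
    intro i
    change (1 * m.1 * 1⁻¹) i = m.1 i
    simp
  mul_smul g h m := by
    apply PM.ext'
    intro i
    change (g * h * m.1 * (g * h)⁻¹) i = (g * (h * m.1 * h⁻¹) * g⁻¹) i
    simp [mul_assoc]

theorem smul_val {n : ℕ} (g : Equiv.Perm (Fin n)) (m : PM n) (i : Fin n) :
    (g • m).1 i = g (m.1 (g⁻¹ i)) := rfl

/-- `g` on the points `2, 3, ...` -/
def sh2 {n : ℕ} (g : Equiv.Perm (Fin n)) : Equiv.Perm (Fin (n + 2)) := shift (shift g)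

theorem sh2_zero {n : ℕ} (g : Equiv.Perm (Fin n)) : sh2 g 0 = 0 := shift_zero _

theorem sh2_one {n : ℕ} (g : Equiv.Perm (Fin n)) : sh2 g 1 = 1 := by
  have h := shift_succ (shift g) 0
  rw [shift_zero] at h
  exact h

theorem sh2_succ {n : ℕ} (g : Equiv.Perm (Fin n)) (i : Fin n) :
    sh2 g i.succ.succ = (g i).succ.succ := by
  unfold sh2
  rw [shift_succ, shift_succ]

/-- a point of `Fin (n + 2)` is `0`, `1` or `i.succ.succ` -/
theorem fin_cases2 {n : ℕ} (p : Fin (n + 2)) : p = 0 ∨ p = 1 ∨ ∃ i : Fin n, p = i.succ.succ := by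
  rcases Fin.eq_zero_or_eq_succ p with h | ⟨q, rfl⟩
  · exact Or.inl h
  · rcases Fin.eq_zero_or_eq_succ q with h | ⟨i, rfl⟩
    · right
      left
      rw [h]
      rfl
    · exact Or.inr (Or.inr ⟨i, rfl⟩)

theorem ss_ne_zero {n : ℕ} (i : Fin n) : (i.succ.succ : Fin (n + 2)) ≠ 0 := Fin.succ_ne_zero _

theorem ss_ne_one {n : ℕ} (i : Fin n) : (i.succ.succ : Fin (n + 2)) ≠ 1 := by
  intro h
  have h2 := congrArg Fin.val h
  simp at h2

/-- add the chord `{0, 1}` -/
def up {n : ℕ} (m : PM n) : PM (n + 2) :=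
  ⟨swap 0 1 * sh2 m.1, by
    constructor
    · intro p
      rcases fin_cases2 p with rfl | rfl | ⟨i, rfl⟩
      · simp only [Equiv.Perm.mul_apply, sh2_zero, swap_apply_left, sh2_one, swap_apply_right]
      · simp only [Equiv.Perm.mul_apply, sh2_one, swap_apply_right, sh2_zero, swap_apply_left]
      · simp only [Equiv.Perm.mul_apply, sh2_succ,
          swap_apply_of_ne_of_ne (ss_ne_zero _) (ss_ne_one _), m.2.1]
    · intro p
      rcases fin_cases2 p with rfl | rfl | ⟨i, rfl⟩
      · simp [Equiv.Perm.mul_apply, sh2_zero]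
      · simp [Equiv.Perm.mul_apply, sh2_one]
      · rw [Equiv.Perm.mul_apply, sh2_succ, swap_apply_of_ne_of_ne (ss_ne_zero _) (ss_ne_one _)]
        intro h
        exact m.2.2 i (Fin.succ_injective _ (Fin.succ_injective _ h))⟩

theorem up_zero {n : ℕ} (m : PM n) : (up m).1 0 = 1 := by
  change ((swap 0 1 * sh2 m.1 : Equiv.Perm (Fin (n + 2))) 0) = 1
  rw [Equiv.Perm.mul_apply, sh2_zero, swap_apply_left]

theorem up_one {n : ℕ} (m : PM n) : (up m).1 1 = 0 := by
  change ((swap 0 1 * sh2 m.1 : Equiv.Perm (Fin (n + 2))) 1) = 0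
  rw [Equiv.Perm.mul_apply, sh2_one, swap_apply_right]

theorem up_succ {n : ℕ} (m : PM n) (i : Fin n) : (up m).1 i.succ.succ = (m.1 i).succ.succ := by
  change ((swap 0 1 * sh2 m.1 : Equiv.Perm (Fin (n + 2))) i.succ.succ) = _
  rw [Equiv.Perm.mul_apply, sh2_succ, swap_apply_of_ne_of_ne (ss_ne_zero _) (ss_ne_one _)]

theorem up_injective {n : ℕ} : Function.Injective (up : PM n → PM (n + 2)) := by
  intro m m' h
  apply PM.ext'
  intro i
  have h1 := up_succ m i
  rw [h, up_succ] at h1
  exact (Fin.succ_injective _ (Fin.succ_injective _ h1)).symm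

/-- the matchings of `Fin (n + 2)` containing the chord `{0, 1}` -/
theorem exists_up {n : ℕ} (m : PM (n + 2)) (h : m.1 0 = 1) : ∃ m' : PM n, up m' = m := by
  have h1 : m.1 1 = 0 := by
    rw [← h, m.inv]
  have h2 : (swap 0 1 * m.1 : Equiv.Perm (Fin (n + 2))) 0 = 0 := by
    rw [Equiv.Perm.mul_apply, h, swap_apply_right]
  obtain ⟨g, hg⟩ : ∃ g : Equiv.Perm (Fin (n + 1)), shift g = swap 0 1 * m.1 :=
    ⟨_, shift_decomposeFin _ h2⟩
  have h3 : g 0 = 0 := by
    have h4 := shift_succ g 0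
    rw [hg] at h4
    have h5 : (swap 0 1 * m.1 : Equiv.Perm (Fin (n + 2))) (Fin.succ 0) = 1 := by
      change (swap 0 1 * m.1 : Equiv.Perm (Fin (n + 2))) 1 = 1
      rw [Equiv.Perm.mul_apply, h1, swap_apply_left]
    rw [h5] at h4
    have h6 : (Fin.succ 0 : Fin (n + 2)) = (g 0).succ := h4
    exact (Fin.succ_injective _ h6).symm
  obtain ⟨f, hf⟩ : ∃ f : Equiv.Perm (Fin n), shift f = g := ⟨_, shift_decomposeFin _ h3⟩
  have h4 : sh2 f = swap 0 1 * m.1 := by
    unfold sh2
    rw [hf, hg]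
  have h5 : ∀ i : Fin n, m.1 i.succ.succ = (f i).succ.succ := by
    intro i
    have h6 := sh2_succ f i
    rw [h4, Equiv.Perm.mul_apply] at h6
    have h7 := congrArg (swap (0 : Fin (n + 2)) 1) h6
    rw [swap_apply_self, swap_apply_of_ne_of_ne (ss_ne_zero _) (ss_ne_one _)] at h7
    exact h7
  refine ⟨⟨f, ?_, ?_⟩, ?_⟩
  · intro i
    have h6 := m.inv i.succ.succ
    rw [h5, h5] at h6
    exact Fin.succ_injective _ (Fin.succ_injective _ h6)
  · intro i h6
    apply m.ne i.succ.succ
    rw [h5, h6]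
  · apply PM.ext'
    intro p
    rcases fin_cases2 p with rfl | rfl | ⟨i, rfl⟩
    · rw [up_zero, h]
    · rw [up_one, h1]
    · rw [up_succ, h5]

/-- translation of `x` -/
def trF {K : Type*} {n : ℕ} (g : Equiv.Perm (Fin n)) (x : PM n → K) : PM n → K :=
  fun m => x (g • m)

section Ops

variable {K : Type*} [Field K]

/-- add the chord `{0, 1}` -/
def upF {n : ℕ} (x : PM n → K) : PM (n + 2) → K :=
  fun m' => ∑ m : PM n, if m' = up m then x m else 0

/-- delete the chord `{0, 1}`, the adjoint of `upF` -/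
def delF {n : ℕ} (x : PM (n + 2) → K) : PM n → K := fun m => x (up m)

/-- contraction of the points `0` and `1` with the parameter `δ` -/
def ctrF (δ : K) {n : ℕ} (x : PM (n + 2) → K) : PM n → K :=
  fun m => δ * x (up m) + ∑ i : Fin n, x (swap i.succ.succ 1 • up m)

/-- a relation system with the parameter `δ`: subspaces of the functions on the matchings, stable under
permutations, adding a chord, contraction; the empty matching is not a relation -/
structure System (K : Type*) [Field K] (δ : K) where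
  /-- the relations on `n` points -/
  R : ∀ n : ℕ, Submodule K (PM n → K)
  zero : R 0 = ⊥
  stable : ∀ (n : ℕ) (x : PM n → K) (g : Equiv.Perm (Fin n)), x ∈ R n → trF g x ∈ R n
  up : ∀ (n : ℕ) (x : PM n → K), x ∈ R n → upF x ∈ R (n + 2)
  down : ∀ (n : ℕ) (x : PM (n + 2) → K), x ∈ R (n + 2) → ctrF δ x ∈ R n

end Ops

end Pool.Agent.W_868bb7_t7
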